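import Mathlib
import Pool.Agent.Y827.HN.Pat
import Pool.Agent.H732R3.TupIP

/-! Combinatorial lines of forms with all patterns of prime values along narrow progressions. -/

set_option autoImplicit false

namespace Pool.Agent.X41.NA

open Finset Filter Pool.Agent.Y827.HN

open Classical in
/-- all patterns along narrow progressions of every length -/
def NP {k : ℕ} (g : Fin (k + 1) → ℤ × ℤ) : Prop :=
  ∀ l : ℕ, ∃ C : ℕ, ∃ᶠ N : ℕ in atTop, ∀ J : Finset (Fin (k + 1)),
    QX l C N (J.image g) ((univ \ J).image g)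

theorem pigeon {Z : Type} [Finite Z] {P : ℕ → Z → Prop} (h : ∀ᶠ N : ℕ in atTop, ∃ z, P N z) :
    ∃ z, ∃ᶠ N : ℕ in atTop, P N z := by
  by_contra hcon
  push Not at hcon
  have h1 : ∀ᶠ N : ℕ in atTop, ∀ z, ¬ P N z := eventually_all.2 fun z => by
    have := hcon z
    rwa [not_frequently] at this
  obtain ⟨N, ⟨z, hz⟩, h2⟩ := (h.and h1).exists
  exact h2 z hz

/-- In a locally admissible family of primitive forms indexed by the words of a large length there is a
combinatorial line whose forms have all patterns along narrow progressions. -/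
theorem line_np (k : ℕ) : ∃ n K : ℕ, 1 ≤ K ∧
    ∀ (α β : (Fin n → Fin (k + 1)) → Fin K → ℤ), (∀ w s, 0 < α w s) →
    (∀ w s, IsCoprime (α w s) (β w s)) →
    (∀ w s w' s', α w s = α w' s' → β w s = β w' s' → w = w' ∧ s = s') →
    (∀ p : ℕ, p.Prime → ∃ m : ℤ, ∀ w s, ¬ ((p : ℤ) ∣ α w s * m + β w s)) →
    ∃ (L : Combinatorics.Line (Fin (k + 1)) (Fin n)) (σ : Fin (k + 1) → Fin K),
      NP (fun i => (α (L i) (σ i), β (L i) (σ i))) := by
  classical
  obtain ⟨n, hn⟩ := Pool.Agent.H732R3.Tup.dhj_quarter k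
  obtain ⟨K, hK, hq⟩ := patRD ((k + 1) ^ n)
  refine ⟨n, K, hK, fun α β hα hcop hinj hadm => ?_⟩
  set e : (Fin n → Fin (k + 1)) ≃ Fin ((k + 1) ^ n) := finFunctionFinEquiv with he
  have hlinj : ∀ L : Combinatorics.Line (Fin (k + 1)) (Fin n), Function.Injective (fun i => L i) := by
    intro L i i' hii
    obtain ⟨j, hj⟩ := L.proper
    have := congrFun hii j
    simp only at this
    rw [Combinatorics.Line.apply_none _ _ _ hj, Combinatorics.Line.apply_none _ _ _ hj] at this
    exact this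
  have key := hq (Nat.one_le_pow _ _ (by omega)) (fun g s => (α (e.symm g) s, β (e.symm g) s))
    (by
      rintro ⟨g, s⟩ ⟨g', s'⟩ h
      simp only [Prod.mk.injEq] at h
      obtain ⟨h1, h2⟩ := hinj _ _ _ _ h.1 h.2
      exact Prod.ext (e.symm.injective h1) h2)
    (fun g s => ⟨hα _ _, hcop _ _⟩)
    (by
      intro p hp _
      obtain ⟨m, hm⟩ := hadm p hp
      exact ⟨m, fun g s => hm _ _⟩)
    ∅ (by simp)
  -- for every `l` a line
  have h1 : ∀ l : ℕ, ∃ (C : ℕ) (z : (Fin (k + 1) → Fin n → Fin (k + 1)) × (Fin (k + 1) → Fin K)),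
      ∃ᶠ N : ℕ in atTop, (∃ L : Combinatorics.Line (Fin (k + 1)) (Fin n), (fun i => L i) = z.1) ∧
        AllP ∅ l C N (univ.image (fun i => (α (z.1 i) (z.2 i), β (z.1 i) (z.2 i)))) := by
    intro l
    obtain ⟨C, hC⟩ := key l
    refine ⟨C, pigeon ?_⟩
    filter_upwards [hC] with N hN
    obtain ⟨S, c, hS, hall⟩ := hN
    have hS' : (k + 1) ^ n ≤ 4 * (S.map e.symm.toEmbedding).card := by
      rw [card_map]
      have h2 : (((k + 1) ^ n : ℕ) : ℝ) ≤ 4 * (S.card : ℝ) := by
        refine hS.trans ?_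
        nlinarith [Nat.cast_nonneg (α := ℝ) S.card]
      exact_mod_cast h2
    obtain ⟨L, hL⟩ := hn (S.map e.symm.toEmbedding) hS'
    have hLS : ∀ i, e (L i) ∈ S := by
      intro i
      have := hL i
      rw [mem_map] at this
      obtain ⟨g, hg, hgi⟩ := this
      have h2 : e (L i) = g := by
        rw [← hgi]
        simp
      rw [h2]; exact hg
    refine ⟨(fun i => L i, fun i => c (e (L i))), ⟨L, rfl⟩, AllP_anti ?_ hall⟩
    intro f hf
    obtain ⟨i, -, rfl⟩ := mem_image.1 hf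
    refine mem_image.2 ⟨e (L i), hLS i, ?_⟩
    simp
  choose C z hz using h1
  obtain ⟨y, hy⟩ := Finite.exists_infinite_fiber z
  have hy' : (z ⁻¹' {y}).Infinite := Set.infinite_coe_iff.1 hy
  obtain ⟨l0, hl0, -⟩ := hy'.exists_gt 0
  obtain ⟨L, hL⟩ : ∃ L : Combinatorics.Line (Fin (k + 1)) (Fin n), (fun i => L i) = y.1 := by
    obtain ⟨N, hN, -⟩ := (hz l0).exists
    rw [← (show z l0 = y from hl0)]
    exact hN
  have hLi : ∀ i, y.1 i = L i := fun i => (congrFun hL i).symm
  refine ⟨L, y.2, fun l => ?_⟩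
  obtain ⟨l', hl', hll'⟩ := hy'.exists_gt l
  refine ⟨C l', (hz l').mono ?_⟩
  rintro N ⟨-, hN⟩ J
  rw [show z l' = y from hl'] at hN
  simp only [hLi] at hN
  have hginj : Function.Injective (fun i => (α (L i) (y.2 i), β (L i) (y.2 i))) := by
    intro i i' h
    simp only [Prod.mk.injEq] at h
    exact hlinj L (hinj _ _ _ _ h.1 h.2).1
  have h3 := AllP_len (Subset.refl _) hll'.le hN (J.image (fun i => (α (L i) (y.2 i), β (L i) (y.2 i))))
    (image_subset_image (subset_univ _))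
  refine QX_anti (Subset.refl _) ?_ h3
  intro f hf
  obtain ⟨i, hi, rfl⟩ := mem_image.1 hf
  refine mem_union_left _ (mem_sdiff.2 ⟨mem_image.2 ⟨i, mem_univ _, rfl⟩, fun h => ?_⟩)
  obtain ⟨i', hi', h'⟩ := mem_image.1 h
  rw [hginj h'] at hi'
  exact (mem_sdiff.1 hi).2 hi'

end Pool.Agent.X41.NA
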